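import Pool.Agent.W973.IP.Defs

/-!
# Finiteness of Fritz John points
-/

set_option autoImplicit false

namespace Pool.Agent.W803.IP

open Pool.Agent.W973.IP MvPolynomial

theorem roots_finite (S : MvPolynomial Unit ℝ) (hS : S ≠ 0) :
    {x : ℝ | aeval (fun _ : Unit => x) S = 0}.Finite := by
  have hp : MvPolynomial.uniqueAlgEquiv ℝ Unit S ≠ 0 := by
    intro h
    exact hS ((MvPolynomial.uniqueAlgEquiv ℝ Unit).injective (by rw [h, map_zero]))
  refine (Polynomial.finite_setOfPred_isRoot hp).subset fun x hx => ?_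
  have key : ∀ Q : MvPolynomial Unit ℝ,
      Polynomial.eval x (MvPolynomial.uniqueAlgEquiv ℝ Unit Q) = aeval (fun _ : Unit => x) Q := by
    intro Q
    induction Q using MvPolynomial.induction_on with
    | C a => simp
    | add p q hp hq => rw [map_add, Polynomial.eval_add, hp, hq, map_add]
    | mul_X p i hp => rw [map_mul, Polynomial.eval_mul, hp, map_mul]; simp
  show Polynomial.IsRoot _ x
  rw [Polynomial.IsRoot.def, key]
  exact hx

theorem fin (h1 : S_PAR2) (h2 : S_IND) (h3 : S_IDX) (h5 : S_SEP) : S_FIN := by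
  intro n P hP c e he r hr
  -- for each separating form and each coordinate a finite set of values
  have hB : ∀ (s : Fin (MM n)) (T : Unit ⊕ Fin n ⊕ (Fin (r + 1) × Fin n) ⊕ Fin (r + 1)),
      ∃ B : Set ℝ, B.Finite ∧ ∀ (v : ℝ) (u : Vec n) (w : Fin (r + 1) → Vec n)
        (lam : Fin (r + 1) → ℝ), FJ P (aE n) (c : ℝ) (e : ℝ) v (r + 1) u w lam →
        Function.Injective (fun i => Lf (s : ℕ) (w i)) → co v u w lam T ∈ B := by
    intro s T
    obtain ⟨R, hR0, hRd, hR⟩ := h1 n P hP c e he r s hr T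
    obtain ⟨S, hS0, _, hS⟩ := h2 (Ft n) Unit (bb n) (fa n) idx (h3 n).1 (h3 n).2.1 R hR0
      (fun x => hRd (Sum.inl x))
    refine ⟨_, roots_finite S hS0, fun v u w lam hFJ hinj => ?_⟩
    have := hR (aE n) v u w lam hFJ hinj
    show aeval (fun _ : Unit => co v u w lam T) S = 0
    rw [hS]
    exact this
  choose B hBf hBm using hB
  let Φ : ℝ × Vec n × (Fin (r + 1) → Vec n) × (Fin (r + 1) → ℝ) →
      (Unit ⊕ Fin n ⊕ (Fin (r + 1) × Fin n) ⊕ Fin (r + 1) → ℝ) :=
    fun p => co p.1 p.2.1 p.2.2.1 p.2.2.2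
  have hΦ : Function.Injective Φ := by
    rintro ⟨v, u, w, lam⟩ ⟨v', u', w', lam'⟩ h
    have hv : v = v' := congrFun h (Sum.inl ())
    have hu : u = u' := funext fun l => congrFun h (Sum.inr (Sum.inl l))
    have hw : w = w' := funext fun i => funext fun j =>
      congrFun h (Sum.inr (Sum.inr (Sum.inl (i, j))))
    have hl : lam = lam' := funext fun i => congrFun h (Sum.inr (Sum.inr (Sum.inr i)))
    rw [hv, hu, hw, hl]
  have hfin : ∀ s : Fin (MM n), (Φ ⁻¹' (Set.pi Set.univ (B s))).Finite := fun s =>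
    (Set.Finite.pi' (fun T => hBf s T)).preimage hΦ.injOn |>.subset (by
      intro p hp T
      exact hp T (Set.mem_univ T))
  refine (Set.finite_iUnion hfin).subset ?_
  rintro ⟨v, u, w, lam⟩ hp
  obtain ⟨s, hs⟩ := h5 n (r + 1) w (by omega) hp.inj
  exact Set.mem_iUnion.2 ⟨s, fun T _ => hBm s T v u w lam hp hs⟩

end Pool.Agent.W803.IP
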